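import Pool.Agent.X308.J.Main

/-!
# The Abel-Jacobi maps on algebraically trivial cycles

`𝒱` is a class of smooth projective geometrically irreducible varieties over the field `k` closed
under products (for the problem: all smooth projective varieties over the field of algebraic
numbers), `C` the Chow groups with rational coefficients (in the form of their formal properties,
`IsChowProj`), `H` a Weil cohomology theory (`IsWeilProj`), `N X i ⊆ CH^i(X)` the kernels of the
Abel-Jacobi maps on homologically trivial cycles, with the two known properties `IsAJKernel`.

Theorem. These are equivalent: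
(1) the Abel-Jacobi maps of all `X` are injective on the algebraically trivial cycles
`CH^i_alg(X)_ℚ`, for all `i`;
(2) correspondences which act as zero on `H^(2j-1)(X)` act as zero on `CH^j_alg(X)_ℚ`;
(3) homologically trivial correspondences act as zero on `CH^j_alg(X)_ℚ`;
(4) `a b = 0` for all algebraically trivial `a` and homologically trivial `b` on the same `X`;
(5) `Γ ∘ Γ' = 0` and `Γ' ∘ Γ = 0` for all algebraically trivial `Γ` and homologically trivial `Γ'`
in `CH^(dim X)(X × X)_ℚ`;
(6) `Γ ∘ Γ' = Γ' ∘ Γ` for all these `Γ` and `Γ'`;
(7) there is a noncommutative polynomial `f` over `ℚ` with a nonzero coefficient at the monomial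
`x_0 x_1` such that `f(x_0, x_1, …) = 0` for all `X` and all self-correspondences
`x_0, x_1, …` in `CH^(dim X)(X × X)_ℚ`, with `x_0` algebraically trivial and the others
homologically trivial.

The assertion (1) is Q1 for algebraically trivial cycles on smooth projective varieties; so this
part of Q1 does not depend on the intermediate Jacobians: it is a statement on the ring structure of
the Chow groups of products.

Proof. (3) ⇒ (1): let `z = Γ_* v` with a zero-cycle `v` of degree zero on a curve `T`. The kernel of
the homomorphism from `J(T)` to the intermediate Jacobian is, up to isogeny, the image of an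
idempotent endomorphism `e` of `J(T)` with `e v = v`, and `Γ ∘ e` is zero on `H^1(T)`, so it may be
replaced by a homologically trivial correspondence. (7) ⇒ (4): one applies the identity to
`x_0 = Δ_*(a) × h^r × h^s` and `x_1 = Δ_*(b) × h^r' × h^s'` on `X × W`.
-/

set_option autoImplicit false

universe u v w

namespace Pool.Agent.Results.MP_537ea0_ag.AlgebraicallyTrivialCycles

open Pool.Agent.H914 Pool.Agent.W492.BB Pool.Agent.TH133 Pool.Agent.X308.J

/-- The Abel-Jacobi maps of all varieties are injective on the algebraically trivial cycles (with
rational coefficients) if and only if the products of algebraically trivial and homologically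
trivial cycles vanish, if and only if algebraically trivial and homologically trivial
self-correspondences commute. -/
theorem result {k : Type u} [Field k] {𝒱 : VarClass k} (C : TheoryData.{u, v, 0} 𝒱 ℚ)
    [IsChowProj C] {K : Type w} [Field K] (H : WeilTheoryData.{u, v, w} C K) [IsWeilProj H]
    (N : ∀ X : 𝒱.Obj, ℕ → C.A X → Prop) (hN : IsAJKernel H N) :
    List.TFAE [AJInjective N, KillsActZero H, HomTrivialActZero H, ProductsVanish H,
      CompositionsVanish H, Commute H, ∃ f : List ℕ →₀ ℚ, f [0, 1] ≠ 0 ∧ SatisfyIdentity H f] :=
  alg_iff hN

end Pool.Agent.Results.MP_537ea0_ag.AlgebraicallyTrivialCycles
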