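import Pool.Agent.X312.CH.Gen

/-!
# Abel-Jacobi kernels and products of homologically trivial cycles on `Y × X ^ n` over `ℚ̄`

Let `X` and `Y` be smooth projective varieties over the field of algebraic numbers. Nothing is
assumed on `Y`. On `X` we assume that the numerically trivial self-correspondences of its powers
are nilpotent (by Kimura this holds if the Chow motive of `X` is finite-dimensional) and that
homological and numerical equivalence agree on its powers; both are known for products of curves
and for abelian varieties in characteristic zero. Let `ρ(Z)` be the rank of the cycles of all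
codimensions on `Z` modulo numerical equivalence, and `b` the sum of the Betti numbers of `X`.

The product of two homologically trivial cycles lies in the kernel of the Abel-Jacobi map, so the
conjecture Q1 predicts that all these products vanish (with rational coefficients). Let `P(Z)` be
the subspace of `CH(Z)_ℚ` generated by the cycles `Γ_* (x · y)`, where `x` and `y` are
homologically trivial cycles on any variety `S` and `Γ` is any correspondence from `S` to `Z`, and
let `K(Z)` be the kernel of the Abel-Jacobi map (all codimensions together); so `P(Z)` is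
contained in `K(Z)`. For all `m ≥ 1`: `K(Y × X ^ m) = 0` **or** `dim K(Y × X ^ n) ≥ (1 - ε_n) ρ(X
^ n)` **for all** `n ≥ 1`; **and** `P(Y × X ^ m) = 0` **or** `dim P(Y × X ^ n) ≥ (1 - ε_n) ρ(X ^
n)` **for all** `n ≥ 1`, where `ε_n = 4 (m + 3) b ^ (m + 5) log (n + 1) / n` tends to zero (the
dimensions may be infinite). So one nonzero product of two homologically trivial cycles on some `Y
× X ^ m` forces almost `ρ(X ^ n)` independent cycles of this kind on all the varieties `Y × X ^
n`.

The proof. For `Z` a power of `X` let `N(Z)` be the space of the cycles in question on `Y × Z`;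
the correspondences between powers of `X` act on these spaces. Modulo numerical equivalence the
self-correspondences of `P = X ^ m` form a finite-dimensional algebra, and the numerically trivial
ones are nilpotent, so that idempotents can be lifted. If `N(P) ≠ 0`, one takes an idempotent
correspondence `g` on `P` of minimal rank with `g N(P) ≠ 0` and an element `z ≠ 0` of `g N(P)`.
The correspondences `x` with `x z = 0` have a nilpotent compression `g x g`, so the trace of `g x`
vanishes, and so `dim N(Z)` is at least the rank of the trace form `(u, v) ↦ tr (g v u)`; for `Z =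
X ^ n` this rank is compared with `ρ(X ^ n)` by the log-convexity of the sequence of the ranks of
the intersection forms and by the symmetric group.
-/

set_option autoImplicit false

open CategoryTheory AlgebraicGeometry

universe u v

namespace Pool.Agent.Results.MP_537ea0_ag.ProductsOfHomTrivialCycles

open Pool.Agent.H914 VarClass Obj WeilCohomology
open Pool.Agent.W492.BB (TheoryData)
open Pool.Agent.X312.CH (CycleTheory AbelJacobi HasIndep generated)
open Pool.Agent.Y133.Half (pw cycRank)

variable {k : Type u} [Field k] {𝒱 : VarClass k} {ops : CycleOps 𝒱}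
  {W : WeilCohomology.{u, v} ops} {C : TheoryData.{u, 0, 0} 𝒱 ℚ}

/-- The sum of the Betti numbers of `X`. -/
noncomputable def totalBetti (W : WeilCohomology.{u, v} ops) (X : 𝒱.Obj) : ℕ :=
  Module.finrank W.K (W.H X)

/-- The Abel-Jacobi map of `Z` is injective on the homologically trivial cycles (of all
codimensions, with rational coefficients). -/
def AJInjective {𝓣 : CycleTheory W C} (Φ : AbelJacobi 𝓣) (Z : 𝒱.Obj) : Prop :=
  ∀ a : C.A Z, 𝓣.HomTriv a → Φ.aj Z a = 0 → a = 0

/-- The cycle `a` is the product of two homologically trivial cycles. -/
def IsHomProduct (𝓣 : CycleTheory W C) (S : 𝒱.Obj) (a : C.A S) : Prop :=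
  ∃ x y : C.A S, 𝓣.HomTriv x ∧ 𝓣.HomTriv y ∧ a = C.mul x y

/-- **The gap laws for Abel-Jacobi kernels and for products of homologically trivial cycles.** Here
`pw X m` is the product of `m + 1` copies of `X`, `generated C G Z` is the space of cycles on `Z`
generated under correspondences by the cycles with the property `G`, and `HasIndep S x` says that there
are at least `x` linearly independent elements of `S`. -/
theorem result (𝓣 : CycleTheory W C) (Φ : AbelJacobi 𝓣) (X Y : 𝒱.Obj)
    (hX : ∀ n : ℕ, 𝓣.NumNil (pw X n)) (hD : ∀ n : ℕ, HomEqNum W (pw X n)) (m : ℕ) :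
    -- the kernel of the Abel-Jacobi map
    (AJInjective Φ (Y.prod (pw X m)) ∨
    ∀ n : ℕ, HasIndep {a : C.A (Y.prod (pw X n)) | 𝓣.HomTriv a ∧ Φ.aj _ a = 0}
      ((1 - 4 * (m + 4) * (totalBetti W X : ℝ) ^ (m + 6) * Real.log (n + 2) / (n + 1)) *
        cycRank ops (pw X n))) ∧
    -- products of homologically trivial cycles
    ((∀ x y : C.A (Y.prod (pw X m)), 𝓣.HomTriv x → 𝓣.HomTriv y → C.mul x y = 0) ∨
    ∀ n : ℕ, HasIndep {a : C.A (Y.prod (pw X n)) | a ∈ generated C (IsHomProduct 𝓣) _}
      ((1 - 4 * (m + 4) * (totalBetti W X : ℝ) ^ (m + 6) * Real.log (n + 2) / (n + 1)) *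
        cycRank ops (pw X n))) := by
  have hI := 𝓣.isTheory
  refine ⟨?_, ?_⟩
  · rcases Pool.Agent.X312.CH.aj_law' Φ X Y hX hD m with h | h
    · exact Or.inl fun a h1 h2 => h a ⟨h1, h2⟩
    · exact Or.inr h
  · rcases Pool.Agent.X312.CH.gen_law 𝓣 (IsHomProduct 𝓣) X Y hX hD m with h | h
    · exact Or.inl fun x y hx hy =>
        h _ (Pool.Agent.X312.CH.mem_generated ⟨x, y, hx, hy, rfl⟩)
    · exact Or.inr h

end Pool.Agent.Results.MP_537ea0_ag.ProductsOfHomTrivialCycles
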