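import Pool.Agent.X120.NF.Mix

/-!
# The Abel-Jacobi map on the cycles of a family of quasi-projective varieties in the fibres over the points `b^(-t)`

Let `f : X → S` be a family of smooth quasi-projective varieties over an open part `S` of the projective line, defined over a number field (compactifiable, so that the cohomology of the fibres is a variation of mixed Hodge
structure), `U` a smooth quasi-projective variety over `ℚ̄`, and let `Z_1, …, Z_r` be algebraic cycles of codimension `m` on `X ×_S (U × S)`, whose restrictions `Z_(j,t)` to the varieties `X_t × U` are homologically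
trivial. Let `V_t`, of rank `n`, be a direct factor of the mixed Hodge structure `H^w(X_t)` and `V_0`, of dimension `n_0`, one of `H^(w_0)(U)`, `w + w_0 = 2m - 1`. The Abel-Jacobi map has a component with values in
`Ext^1_MHS(ℚ(0), V_t ⊗ V_0 (m)) = W_ℂ / (W_ℚ + F^m ∩ W_ℂ)` (Carlson), where `W = W_(2m)(V_t ⊗ V_0)`. Let `ω` be a section of `(F^(q_1) V)^⊥` in the dual of the de Rham cohomology over `ℚ̄(x)` (relative differential forms), and `η` in
`(F^(q_2) V_0)^⊥`, with `q_1 + q_2 = m + 1`; then `ω_t ⊗ η` annihilates `F^m`. The value of the pairing of the Abel-Jacobi image of `Z_(j,t)` with `ω_t ⊗ η` is an integral `p_j(t)` over a chain (it depends on the choice of the chain up to periods). We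
suppose that near `x = 0` the vector with the entries `p_1, …, p_r` and the `n` periods (the coordinates) of `ω` is `L(log(1/x)) P(x)`, where the entries of `P` are polynomials with any complex coefficients in a system of G-functions
with rational coefficients (solutions of a differential system with a regular singularity with rational exponents at infinity), the entries of `L(u)` are polynomials, and `L(u)` is invertible. If there is no degeneration at `x = 0` this is so with
`L = 1`; for a family over a number field one uses the direct sum of the conjugates of the differential system, which is defined over `ℚ`; `x = 0` may also be a point with unipotent monodromy. We suppose that the functions `1`, `P_1, …, P_(r+n)` are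
linearly independent over `ℂ(x)`.

Example: `X_t = X'_t - D_t` for a projective family with irreducible and nontrivial monodromy on a factor `V'` of `H^(2m-1)(X'_t)`, and `D_t` the union of some cycles of codimension `m`; `V_t` is the extension of `ℚ(-m)^s` by `V'_t` which corresponds to the homologically trivial
cycles with support in `D_t`. Then `p_(r+1), …, p_(r+s)` (the first `s` periods) are the values of the Abel-Jacobi map on them, and the condition is that the normal functions of the `r + s` cycles are linearly independent modulo constants. Products with the varieties `U`.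

**Theorem.** Let `b ≥ 2` be an integer. There is a constant `C`, which depends only on the G-functions, `b`, `n`, `r`, `n_0` and on a bound `e` for the degrees of the polynomials, such that for all such families and cycles, all `V_0`, `η` and all `N ≥ 2`: for all but at
most `C log N` of the `t ≤ N` the cycles `Z_(1,t), …, Z_(r,t)` on `X_t × U`, `x = b^(-t)`, are linearly independent in `CH^m(X_t × U)_ℚ`, and the Abel-Jacobi map of the quasi-projective variety `X_t × U` is injective on the subspace of `CH^m_hom` which is spanned by the `Z_(j,t)`.

The case of projective varieties and polarised `V_t`, `V_0` is `Pool.Agent.Results.MP_e28333_ag.NormalFunctionsAtPowers`; new here are mixed Hodge structures with arbitrary weights and filtrations. For a normal function of a projective family which is not torsion (modulo constants) it was known that `Z_(1,t)` is not torsion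
for `t` outside a thin set (by specialisation of the `ℓ`-adic Abel-Jacobi map; the points `b^(-t)` may be a part of a thin set) and that the complex Abel-Jacobi image is not torsion for `t` outside a countable set; for Ceresa and Gross-Schoen cycles Gao and Zhang proved it for all but finitely many
rational points in an open set of the moduli space. The construction of cycles is no part of the theorem.

Proof. A relation between the Abel-Jacobi images gives a linear relation between the `p_j(t)` and the periods, with rational coefficients for the `p_j(t)` and with coefficients in the space spanned by the coordinates of `η` for the periods. By the counting theorem on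
values of G-functions on geometric sequences (`Pool.Agent.X120.GS`) for all but few points this relation is the specialisation of a relation over `ℂ(x)`.
-/

set_option autoImplicit false

open Pool.Agent.X120.BM Pool.Agent.X120.NF

namespace Pool.Agent.Results.MP_537ea0_ag.QuasiProjectiveAtPowers

/-- For all mixed Hodge structures `V` with the Hodge filtration `Fil` such that the vector of the periods at `x = b^(-t)` is in `(F^(q_1) V)^⊥`, for all subspaces `W` of `V ⊗ V_0`, all groups `CH`, homomorphisms `AJ` from `CH` to the group of
extensions `W_ℂ / (W_ℚ + F^m ∩ W_ℂ)` and all elements `z_1, …, z_r` of `CH` such that the `AJ z_j` are represented by elements with the pairings `p_j(t)` with `ω_t ⊗ η`: the `z_j` are linearly independent and `AJ` is injective on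
the subspace which they span. -/
def Good {G : GSystem} {n r n₀ e : ℕ} (F : Functions G (r + n) e) (m q₁ : ℤ) (Fil₀ : ℤ → Submodule ℂ (Fin n₀ → ℂ))
    (η : Fin n₀ → ℂ) (b t : ℕ) : Prop :=
  ∀ (Fil : ℤ → Submodule ℂ (Fin n → ℂ)), Antitone Fil → (∀ f ∈ Fil q₁, dotProduct f (periods (F.val b t)) = 0) →
    ∀ (W : Submodule ℚ (Matrix (Fin n) (Fin n₀) ℚ)) (CH : Type) [AddCommGroup CH] [Module ℚ CH] (AJ : CH →ₗ[ℚ] Extensions W Fil Fil₀ m)
      (z : Fin r → CH) (a : Fin r → (complexElements W).restrictScalars ℚ),
      (∀ j, dualPair (periods (F.val b t)) η (a j : Matrix (Fin n) (Fin n₀) ℂ) = F.val b t (Fin.castAdd n j)) →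
      (∀ j, AJ (z j) = Submodule.Quotient.mk (a j)) →
      LinearIndependent ℚ z ∧ ∀ x ∈ Submodule.span ℚ (Set.range z), AJ x = 0 → x = 0

/-- **The theorem.** -/
theorem result (G : GSystem) (n r n₀ e b : ℕ) (hb : 2 ≤ b) :
    ∃ C : ℝ, 0 ≤ C ∧ ∀ (F : Functions G (r + n) e) (m q₁ q₂ : ℤ), q₁ + q₂ ≤ m + 1 →
      ∀ (Fil₀ : ℤ → Submodule ℂ (Fin n₀ → ℂ)), Antitone Fil₀ →
      ∀ η : Fin n₀ → ℂ, (∀ g ∈ Fil₀ q₂, dotProduct g η = 0) → ∀ N : ℕ, 2 ≤ N →
      (({t : ℕ | 1 ≤ t ∧ t ≤ N ∧ ¬ Good F m q₁ Fil₀ η b t}.ncard : ℕ) : ℝ) ≤ C * Real.log N := by
  classical
  obtain ⟨C, hC, hcount⟩ := lin_count G (r + n) e (n₀ + 1) b hb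
  refine ⟨C, hC, ?_⟩
  intro F m q₁ q₂ hm Fil₀ hF₀ η hη N hN
  -- the space of the coefficients
  set V₀ : Submodule ℚ ℂ := Submodule.span ℚ (Set.range fun o : Option (Fin n₀) => o.elim 1 η) with hV₀
  have hVf : Module.Finite ℚ V₀ := Module.Finite.span_of_finite ℚ (Set.finite_range _)
  have hVr : Module.finrank ℚ V₀ ≤ n₀ + 1 := by
    refine (finrank_range_le_card _).trans ?_
    rw [Fintype.card_option, Fintype.card_fin]
  refine le_trans ?_ (hcount F V₀ hVr N hN)
  have hfin : {t : ℕ | 1 ≤ t ∧ t ≤ N ∧ ∃ q : Fin (r + n) → ℂ, q ≠ 0 ∧ (∀ j, q j ∈ V₀) ∧ ∑ j, q j * F.val b t j = 0}.Finite :=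
    (Set.finite_Iic N).subset fun t ht => ht.2.1
  refine Nat.cast_le.2 (Set.ncard_le_ncard ?_ hfin)
  rintro t ⟨ht1, htN, hnot⟩
  refine ⟨ht1, htN, ?_⟩
  by_contra hno
  apply hnot
  intro Fil hF hω W CH _ _ AJ z a ha hAJ
  have hgood : ∀ q : Fin (r + n) → ℂ, (∀ j, q j ∈ V₀) → ∑ j, q j * F.val b t j = 0 → q = 0 := by
    intro q hq h0
    by_contra hq0
    exact hno ⟨q, hq0, hq, h0⟩
  have h1V : (1 : ℂ) ∈ V₀ := Submodule.subset_span ⟨none, rfl⟩
  have hηV : ∀ c, η c ∈ V₀ := fun c => Submodule.subset_span ⟨some c, rfl⟩
  have h1 := ext_indep (W := W) (m := m) hF hF₀ hm hω hη h1V hηV hgood a ha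
  refine inj_of_indep AJ ?_
  have h2 : (fun j => AJ (z j)) = fun j => (Submodule.Quotient.mk (a j) : Extensions W Fil Fil₀ m) := funext hAJ
  rw [h2]
  exact h1

end Pool.Agent.Results.MP_537ea0_ag.QuasiProjectiveAtPowers
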